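import Mathlib
set_option autoImplicit false

namespace Pool.Agent.H467R2.Krylov

open Polynomial Matrix

/-- spectral decomposition of a vector, grouped by eigenvalue -/
theorem exists_decomp {n : ℕ} (B : Matrix (Fin n) (Fin n) ℝ) (hB : B.IsHermitian) (v : Fin n → ℝ) :
    ∃ (S : Finset ℝ) (Z : ℝ → Fin n → ℝ), S.card ≤ n ∧
      (∀ μ ∈ S, Z μ ≠ 0 ∧ B.mulVec (Z μ) = μ • Z μ) ∧ ∑ μ ∈ S, Z μ = v := by
  classical
  set b := hB.eigenvectorBasis with hb
  set lam := hB.eigenvalues with hlam
  set c : Fin n → ℝ := fun j => b.repr (WithLp.toLp 2 v) j with hc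
  set Z : ℝ → Fin n → ℝ := fun μ => ∑ j ∈ Finset.univ.filter (fun j => lam j = μ), c j • (b j).ofLp
    with hZ
  set T : Finset ℝ := Finset.univ.image lam with hT
  have hTc : T.card ≤ n := by
    have := Finset.card_image_le (s := (Finset.univ : Finset (Fin n))) (f := lam)
    simpa using this
  have hsum : ∑ μ ∈ T, Z μ = v := by
    have h1 : ∑ μ ∈ T, Z μ = ∑ j : Fin n, c j • (b j).ofLp := by
      rw [hZ]
      rw [Finset.sum_image' (f := fun μ => ∑ j ∈ Finset.univ.filter (fun j => lam j = μ), c j • (b j).ofLp)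
        (h := fun j => c j • (b j).ofLp)]
      intro i _
      apply Finset.sum_congr _ (fun _ _ => rfl)
      ext j
      simp
    have h2 : ∑ j : Fin n, c j • b j = WithLp.toLp 2 v := b.sum_repr _
    have h3 := congrArg WithLp.ofLp h2
    have h4 : (∑ j, c j • b j).ofLp = v := h3
    rw [h1, ← h4]
    simp [WithLp.ofLp_sum]
  refine ⟨T.filter (fun μ => Z μ ≠ 0), Z, (Finset.card_filter_le _ _).trans hTc, ?_, ?_⟩
  · intro μ hμ
    rw [Finset.mem_filter] at hμ
    refine ⟨hμ.2, ?_⟩
    simp only [hZ]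
    rw [Matrix.mulVec_sum, Finset.smul_sum]
    apply Finset.sum_congr rfl
    intro j hj
    rw [Finset.mem_filter] at hj
    rw [Matrix.mulVec_smul]
    have h := hB.mulVec_eigenvectorBasis j
    rw [← hb, ← hlam] at h
    rw [h, hj.2, smul_comm]
  · rw [← hsum]
    apply Finset.sum_filter_of_ne
    intro μ _ h
    exact h

theorem aeval_eig {n : ℕ} (B : Matrix (Fin n) (Fin n) ℝ) (w : Fin n → ℝ) (μ : ℝ)
    (h : B.mulVec w = μ • w) (Q : ℝ[X]) : (aeval B Q).mulVec w = (Q.eval μ) • w := by
  have hpow : ∀ k : ℕ, (B ^ k).mulVec w = (μ ^ k) • w := by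
    intro k
    induction k with
    | zero => simp
    | succ k ih =>
      rw [pow_succ, ← Matrix.mulVec_mulVec, h, Matrix.mulVec_smul, ih, smul_smul, pow_succ, mul_comm]
  induction Q using Polynomial.induction_on' with
  | add p q hp hq => rw [map_add, Matrix.add_mulVec, hp, hq, eval_add, add_smul]
  | monomial k a =>
    rw [aeval_monomial, eval_monomial]
    rw [← Algebra.smul_def, Matrix.smul_mulVec, hpow, smul_smul]

theorem aeval_coord {n : ℕ} (A : Matrix (Fin n) (Fin n) ℤ) (z : Fin n → ℤ) (P : ℝ[X]) (i : Fin n) :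
    (aeval (A.map (Int.cast : ℤ → ℝ)) P).mulVec (fun p => (z p : ℝ)) i =
      P.sum (fun k a => a * ((((A ^ k).mulVec z) i : ℤ) : ℝ)) := by
  have hpow : ∀ k : ℕ, ((A.map (Int.cast : ℤ → ℝ)) ^ k).mulVec (fun p => (z p : ℝ)) i =
      ((((A ^ k).mulVec z) i : ℤ) : ℝ) := by
    intro k
    have h1 : (A.map (Int.cast : ℤ → ℝ)) ^ k = (A ^ k).map (Int.cast : ℤ → ℝ) := by
      have := (map_pow ((Int.castRingHom ℝ).mapMatrix (m := Fin n)) A k)
      exact this.symm
    rw [h1]
    have h2 := RingHom.map_mulVec (Int.castRingHom ℝ) (A ^ k) z i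
    exact h2.symm
  induction P using Polynomial.induction_on' with
  | add p q hp hq =>
    rw [map_add, Matrix.add_mulVec, Pi.add_apply, hp, hq]
    rw [Polynomial.sum_add_index]
    · intro k; simp
    · intro k a b; ring
  | monomial k a =>
    rw [aeval_monomial, ← Algebra.smul_def, Matrix.smul_mulVec, Pi.smul_apply, hpow,
      Polynomial.sum_monomial_index]
    · rfl
    · simp

theorem aeval_coord_int {n : ℕ} (A : Matrix (Fin n) (Fin n) ℤ) (z : Fin n → ℤ) (P : ℤ[X]) (i : Fin n) :
    (aeval A P).mulVec z i = P.sum (fun k a => a * (((A ^ k).mulVec z) i)) := by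
  induction P using Polynomial.induction_on' with
  | add p q hp hq =>
    rw [map_add, Matrix.add_mulVec, Pi.add_apply, hp, hq]
    rw [Polynomial.sum_add_index]
    · intro k; simp
    · intro k a b; ring
  | monomial k a =>
    rw [aeval_monomial, ← Algebra.smul_def, Matrix.smul_mulVec, Pi.smul_apply,
      Polynomial.sum_monomial_index]
    · rfl
    · simp

theorem aeval_int_real {n : ℕ} (A : Matrix (Fin n) (Fin n) ℤ) (z : Fin n → ℤ) (Q : ℤ[X]) (i : Fin n) :
    (aeval (A.map (Int.cast : ℤ → ℝ)) (Q.map (Int.castRingHom ℝ))).mulVec (fun p => (z p : ℝ)) i =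
      (((aeval A Q).mulVec z i : ℤ) : ℝ) := by
  rw [aeval_coord, aeval_coord_int]
  rw [Polynomial.sum_over_range' _ (by simp) (Q.natDegree + 1)
    (Nat.lt_succ_of_le natDegree_map_le), Polynomial.sum_over_range' _ (by simp) (Q.natDegree + 1)
    (Nat.lt_succ_self _)]
  push_cast
  apply Finset.sum_congr rfl
  intro k _
  rw [coeff_map]
  rfl

theorem krylov {n : ℕ} (A : Matrix (Fin n) (Fin n) ℤ) (hA : A.IsSymm) (h1 : ∀ i j, |A i j| ≤ 1)
    (z : Fin n → ℤ) (hz : z ≠ 0) :
    ∃ (m : ℕ) (P : Polynomial ℤ) (θ : Fin m → ℝ) (Z : Fin m → Fin n → ℝ),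
      0 < m ∧ m ≤ n ∧ StrictAnti θ ∧ P.Monic ∧ P.natDegree = m ∧
      P.map (Int.castRingHom ℝ) = ∏ i, (X - C (θ i)) ∧
      (∀ i, |θ i| ≤ n) ∧ (∀ k, |P.coeff k| ≤ ((n : ℤ) + 1) ^ n) ∧
      (∀ i, Z i ≠ 0) ∧ (∀ i, (A.map (Int.cast : ℤ → ℝ)).mulVec (Z i) = θ i • Z i) ∧
      (∑ i, Z i = fun p => (z p : ℝ)) ∧
      (∀ Q : Polynomial ℤ, (aeval A Q).mulVec z = 0 ↔ P ∣ Q) := by
  classical
  set B := A.map (Int.cast : ℤ → ℝ) with hBdef
  have hB : B.IsHermitian := by
    ext i j
    simp only [hBdef, Matrix.conjTranspose_apply, Matrix.map_apply, star_trivial]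
    have := congrFun (congrFun hA i) j
    rw [Matrix.transpose_apply] at this
    rw [this]
  set v : Fin n → ℝ := fun p => (z p : ℝ) with hv
  obtain ⟨S, Z0, hS, hZ0, hsum⟩ := exists_decomp B hB v
  set m := S.card with hm
  set θ : Fin m → ℝ := fun i => S.orderEmbOfFin rfl (Fin.rev i) with hθ
  have hθS : ∀ i, θ i ∈ S := fun i => Finset.orderEmbOfFin_mem S rfl _
  have hanti : StrictAnti θ := by
    intro i j hij
    exact (S.orderEmbOfFin rfl).strictMono (Fin.rev_lt_rev.2 hij)
  have hinj : Function.Injective θ := hanti.injective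
  set Z : Fin m → Fin n → ℝ := fun i => Z0 (θ i) with hZ
  have hsumZ : ∑ i, Z i = v := by
    rw [← hsum]
    have e1 : ∑ i, Z i = ∑ i : Fin m, Z0 (S.orderEmbOfFin rfl i) :=
      Equiv.sum_comp (Fin.revPerm) (fun i : Fin m => Z0 (S.orderEmbOfFin rfl i))
    rw [e1]
    conv_rhs => rw [← Finset.map_orderEmbOfFin_univ S rfl]
    rw [Finset.sum_map]
    rfl
  have hZne : ∀ i, Z i ≠ 0 := fun i => (hZ0 _ (hθS i)).1
  have hZeig : ∀ i, B.mulVec (Z i) = θ i • Z i := fun i => (hZ0 _ (hθS i)).2
  have hmpos : 0 < m := by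
    rw [Nat.pos_iff_ne_zero]
    intro h0
    apply hz
    have hS0 : S = ∅ := Finset.card_eq_zero.1 (hm ▸ h0)
    rw [hS0, Finset.sum_empty] at hsum
    funext p
    have := congrFun hsum p
    simp only [hv, Pi.zero_apply] at this
    exact_mod_cast this.symm
  have hact : ∀ Q : ℝ[X], (aeval B Q).mulVec v = ∑ i, (Q.eval (θ i)) • Z i := by
    intro Q
    rw [← hsumZ, Matrix.mulVec_sum]
    apply Finset.sum_congr rfl
    intro i _
    exact aeval_eig B (Z i) (θ i) (hZeig i) Q
  have hroots : ∀ Q : ℝ[X], (aeval B Q).mulVec v = 0 → ∀ i, Q.eval (θ i) = 0 := by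
    intro Q hQ i
    have h2 : (aeval B ((∏ j ∈ Finset.univ.erase i, (X - C (θ j))) * Q)).mulVec v = 0 := by
      rw [map_mul, ← Matrix.mulVec_mulVec, hQ, Matrix.mulVec_zero]
    rw [hact, Finset.sum_eq_single i] at h2
    · rw [smul_eq_zero] at h2
      rcases h2 with h2 | h2
      · rw [eval_mul, mul_eq_zero] at h2
        rcases h2 with h2 | h2
        · rw [eval_prod, Finset.prod_eq_zero_iff] at h2
          obtain ⟨j, hj, hj2⟩ := h2
          simp only [eval_sub, eval_X, eval_C, sub_eq_zero] at hj2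
          exact absurd (hinj hj2).symm (Finset.ne_of_mem_erase hj)
        · exact h2
      · exact absurd h2 (hZne i)
    · intro j _ hj
      have : ((∏ j ∈ Finset.univ.erase i, (X - C (θ j))) * Q).eval (θ j) = 0 := by
        rw [eval_mul, eval_prod, Finset.prod_eq_zero (Finset.mem_erase.2 ⟨hj, Finset.mem_univ _⟩)
          (by simp), zero_mul]
      rw [this, zero_smul]
    · intro h; exact absurd (Finset.mem_univ _) h
  set PR : ℝ[X] := ∏ i, (X - C (θ i)) with hPR
  have hPRm : PR.Monic := monic_prod_of_monic _ _ (fun i _ => monic_X_sub_C _)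
  have hPRd : PR.natDegree = m := by
    rw [hPR, natDegree_prod_of_monic _ _ (fun i _ => monic_X_sub_C _)]
    simp
  have hdvd : ∀ Q : ℝ[X], (aeval B Q).mulVec v = 0 ↔ PR ∣ Q := by
    intro Q
    constructor
    · intro h
      refine Finset.prod_dvd_of_coprime ?_ ?_
      · intro i _ j _ hij
        exact pairwise_coprime_X_sub_C hinj hij
      · intro i _
        exact dvd_iff_isRoot.2 (hroots Q h i)
    · rintro ⟨R, rfl⟩
      rw [hact]
      apply Finset.sum_eq_zero
      intro i _
      have : PR.eval (θ i) = 0 := by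
        rw [hPR, eval_prod, Finset.prod_eq_zero (Finset.mem_univ i) (by simp)]
      rw [eval_mul, this, zero_mul, zero_smul]
  -- the rational polynomial
  obtain ⟨f, hf⟩ := LinearMap.exists_leftInverse_of_injective (Algebra.linearMap ℚ ℝ)
    (LinearMap.ker_eq_bot.2 (algebraMap ℚ ℝ).injective)
  have hf1 : ∀ q : ℚ, f (q : ℝ) = q := by
    intro q
    exact LinearMap.congr_fun hf q
  set Qf : ℚ[X] := ∑ k ∈ Finset.range (m + 1), C (f (PR.coeff k)) * X ^ k with hQf
  have hQfc : ∀ k, Qf.coeff k = f (PR.coeff k) := by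
    intro k
    rw [hQf, finsetSum_coeff]
    simp only [coeff_C_mul, coeff_X_pow]
    by_cases hk : k ∈ Finset.range (m + 1)
    · rw [Finset.sum_eq_single k]
      · simp
      · intro j _ hj
        simp [Ne.symm hj]
      · intro h; exact absurd hk h
    · rw [Finset.sum_eq_zero]
      · rw [Finset.mem_range, not_lt] at hk
        rw [coeff_eq_zero_of_natDegree_lt (by omega)]
        simp
      · intro j hj
        have : k ≠ j := fun h => hk (h ▸ hj)
        simp [this]
  have hQfd : Qf.natDegree ≤ m := by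
    rw [natDegree_le_iff_coeff_eq_zero]
    intro k hk
    rw [hQfc, coeff_eq_zero_of_natDegree_lt (by omega)]
    simp
  have hQfm : Qf.Monic := by
    refine monic_of_natDegree_le_of_coeff_eq_one m hQfd ?_
    rw [hQfc]
    have : PR.coeff m = 1 := by
      have := hPRm.coeff_natDegree
      rwa [hPRd] at this
    rw [this]
    have := hf1 1
    simpa using this
  have hQfdeg : Qf.natDegree = m := by
    apply le_antisymm hQfd
    apply le_natDegree_of_ne_zero
    rw [hQfc]
    have : PR.coeff m = 1 := by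
      have := hPRm.coeff_natDegree
      rwa [hPRd] at this
    rw [this]
    have := hf1 1
    simp only [Rat.cast_one] at this
    rw [this]
    exact one_ne_zero
  have hPR0 : (aeval B PR).mulVec v = 0 := (hdvd PR).2 dvd_rfl
  have hQf0 : (aeval B (Qf.map (algebraMap ℚ ℝ))).mulVec v = 0 := by
    funext i
    rw [aeval_coord, Pi.zero_apply]
    rw [Polynomial.sum_over_range' _ (by simp) (m + 1)
      (Nat.lt_succ_of_le (natDegree_map_le.trans hQfd))]
    have h2 := congrFun hPR0 i
    rw [aeval_coord, Pi.zero_apply, Polynomial.sum_over_range' _ (by simp) (m + 1)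
      (by omega)] at h2
    have h3 := congrArg f h2
    rw [map_sum, map_zero] at h3
    have h4 : ∑ k ∈ Finset.range (m + 1), Qf.coeff k * ((((A ^ k).mulVec z) i : ℤ) : ℚ) = 0 := by
      rw [← h3]
      apply Finset.sum_congr rfl
      intro k _
      have e : PR.coeff k * ((((A ^ k).mulVec z) i : ℤ) : ℝ) =
          ((((A ^ k).mulVec z) i : ℤ) : ℚ) • PR.coeff k := by
        rw [Rat.smul_def]
        push_cast
        ring
      rw [e, map_smul, hQfc, smul_eq_mul, mul_comm]
    have h5 := congrArg (fun q : ℚ => (q : ℝ)) h4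
    simp only [Rat.cast_zero] at h5
    rw [← h5]
    push_cast
    apply Finset.sum_congr rfl
    intro k _
    rw [coeff_map]
    rfl
  have hPRQ : Qf.map (algebraMap ℚ ℝ) = PR := by
    refine eq_of_monic_of_dvd_of_natDegree_le hPRm (hQfm.map _) ((hdvd _).1 hQf0) ?_
    rw [natDegree_map, hQfdeg, hPRd]
  -- integrality
  have hch : PR ∣ B.charpoly := by
    rw [← hdvd, Matrix.aeval_self_charpoly, Matrix.zero_mulVec]
  have hchmap : B.charpoly = (A.charpoly.map (algebraMap ℤ ℚ)).map (algebraMap ℚ ℝ) := by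
    rw [Polynomial.map_map, ← IsScalarTower.algebraMap_eq]
    exact Matrix.charpoly_map A (algebraMap ℤ ℝ)
  have hdvdQ : Qf ∣ A.charpoly.map (algebraMap ℤ ℚ) := by
    rw [← Polynomial.map_dvd_map' (algebraMap ℚ ℝ), hPRQ, ← hchmap]
    exact hch
  obtain ⟨P, hP⟩ := IsIntegrallyClosed.eq_map_mul_C_of_dvd ℚ (Matrix.charpoly_monic A) hdvdQ
  rw [hQfm.leadingCoeff, C_1, mul_one] at hP
  have hPR' : P.map (Int.castRingHom ℝ) = PR := by
    rw [← hPRQ, ← hP, Polynomial.map_map]
    congr 1
  have hPm : P.Monic := by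
    refine monic_of_injective (f := Int.castRingHom ℝ) Int.cast_injective ?_
    rw [hPR']; exact hPRm
  have hPd : P.natDegree = m := by
    rw [← hPRd, ← hPR', natDegree_map_eq_of_injective]
    exact Int.cast_injective
  have hθn : ∀ i, |θ i| ≤ n := by
    intro i
    have hn0 : 0 < n := lt_of_lt_of_le hmpos hS
    have : Nonempty (Fin n) := ⟨⟨0, hn0⟩⟩
    obtain ⟨p, hp⟩ := Finite.exists_max (fun q => |Z i q|)
    have hpos : 0 < |Z i p| := by
      rw [abs_pos]
      intro h0
      apply hZne i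
      funext q
      have := hp q
      rw [h0, abs_zero] at this
      exact abs_nonpos_iff.1 this
    have h2 := congrFun (hZeig i) p
    rw [Pi.smul_apply, smul_eq_mul] at h2
    have h3 : |θ i| * |Z i p| ≤ n * |Z i p| := by
      rw [← abs_mul, ← h2, Matrix.mulVec, dotProduct]
      refine (Finset.abs_sum_le_sum_abs _ _).trans ?_
      calc ∑ q, |B p q * Z i q| ≤ ∑ q : Fin n, |Z i p| := by
            apply Finset.sum_le_sum
            intro q _
            rw [abs_mul]
            have h4 : |B p q| ≤ 1 := by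
              rw [hBdef, Matrix.map_apply]
              have := h1 p q
              exact_mod_cast this
            calc |B p q| * |Z i q| ≤ 1 * |Z i p| := by
                  apply mul_le_mul h4 (hp q) (abs_nonneg _) zero_le_one
              _ = |Z i p| := one_mul _
        _ = n * |Z i p| := by simp
    exact le_of_mul_le_mul_right h3 hpos
  refine ⟨m, P, θ, Z, hmpos, hS, hanti, hPm, hPd, hPR', hθn, ?_, hZne, hZeig, hsumZ, ?_⟩
  · intro k
    have hroot : ∀ w ∈ (PR.map (RingHom.id ℝ)).roots, ‖w‖ ≤ (n : ℝ) := by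
      intro w hw
      rw [Polynomial.map_id] at hw
      have hw2 : PR.eval w = 0 := (mem_roots'.1 hw).2
      rw [hPR, eval_prod, Finset.prod_eq_zero_iff] at hw2
      obtain ⟨j, _, hj⟩ := hw2
      simp only [eval_sub, eval_X, eval_C, sub_eq_zero] at hj
      rw [hj, Real.norm_eq_abs]
      exact hθn j
    have hsplit : (PR.map (RingHom.id ℝ)).Splits := by
      rw [Polynomial.map_id, hPR]
      exact Splits.prod (fun i _ => Splits.X_sub_C _)
    have hb := Polynomial.coeff_le_of_roots_le (f := RingHom.id ℝ) (B := (n : ℝ)) k hPRm hsplit hroot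
    rw [Polynomial.map_id, hPRd] at hb
    have hle : (n : ℝ) ^ (m - k) * (m.choose k : ℝ) ≤ ((n : ℝ) + 1) ^ n := by
      by_cases hk : k ≤ m
      · calc (n : ℝ) ^ (m - k) * (m.choose k : ℝ) = 1 ^ k * (n : ℝ) ^ (m - k) * (m.choose k : ℝ) := by
              rw [one_pow, one_mul]
          _ ≤ ∑ j ∈ Finset.range (m + 1), 1 ^ j * (n : ℝ) ^ (m - j) * (m.choose j : ℝ) := by
              apply Finset.single_le_sum (f := fun j => (1:ℝ) ^ j * (n : ℝ) ^ (m - j) * (m.choose j : ℝ))
              · intro j _; positivity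
              · rw [Finset.mem_range]; omega
          _ = (1 + (n : ℝ)) ^ m := by rw [add_pow]
          _ ≤ (1 + (n : ℝ)) ^ n := by
              apply pow_le_pow_right₀ _ hS
              have : (0:ℝ) ≤ n := Nat.cast_nonneg n
              linarith
          _ = ((n : ℝ) + 1) ^ n := by rw [add_comm]
      · rw [Nat.choose_eq_zero_of_lt (by omega)]
        simp only [Nat.cast_zero, mul_zero]
        positivity
    have h3 := hb.trans hle
    rw [← hPR', coeff_map, Real.norm_eq_abs] at h3
    have h4 : |((P.coeff k : ℤ) : ℝ)| ≤ ((n : ℝ) + 1) ^ n := h3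
    exact_mod_cast h4
  · intro Q
    have e1 : (aeval A Q).mulVec z = 0 ↔ (aeval B (Q.map (Int.castRingHom ℝ))).mulVec v = 0 := by
      constructor
      · intro h
        funext i
        rw [aeval_int_real, h]
        simp
      · intro h
        funext i
        have := congrFun h i
        rw [aeval_int_real] at this
        simp only [Pi.zero_apply] at this
        exact_mod_cast this
    rw [e1, hdvd, ← hPR', Polynomial.map_dvd_map (Int.castRingHom ℝ) Int.cast_injective hPm]

end Pool.Agent.H467R2.Krylov
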